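import Mathlib
import Pool.Agent.L7h99.LS.Defs

/-!
The semigroup property and the mass of the heat kernel (part `P_SEMI` of the project LS).
-/

set_option autoImplicit false

open MeasureTheory Set Filter Topology Real
open scoped ENNReal NNReal

namespace Pool.Agent.L7h76.LS

open Pool.Agent.L7h99.LS ProbabilityTheory

/-- The heat kernel in one dimension. -/
noncomputable def g1 (τ u : ℝ) : ℝ := (√(4 * π * τ))⁻¹ * Real.exp (-(u ^ 2 / (4 * τ)))

lemma G_eq {d : ℕ} (τ : ℝ) (z : Fin d → ℝ) : G τ z = ∏ i, g1 τ (z i) := rfl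

lemma g1_nonneg (τ u : ℝ) : 0 ≤ g1 τ u := by unfold g1; positivity

lemma G_nonneg {d : ℕ} (τ : ℝ) (z : Fin d → ℝ) : 0 ≤ G τ z :=
  Finset.prod_nonneg fun i _ => g1_nonneg τ (z i)

lemma g1_gauss {τ : ℝ} (hτ : 0 < τ) (x u : ℝ) :
    g1 τ (x - u) = gaussianPDFReal x (2 * τ).toNNReal u := by
  unfold g1 gaussianPDFReal
  have h1 : (((2 * τ).toNNReal : ℝ≥0) : ℝ) = 2 * τ := Real.coe_toNNReal _ (by positivity)
  rw [h1]
  congr 2
  · congr 1; ring
  · rw [show 4 * τ = 2 * (2 * τ) by ring, ← neg_div]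
    congr 2
    ring

lemma g1_mul {τ σ : ℝ} (hτ : 0 < τ) (hσ : 0 < σ) (x y z : ℝ) :
    g1 τ (x - z) * g1 σ (z - y) = g1 (τ + σ) (x - y) *
      gaussianPDFReal ((σ * x + τ * y) / (τ + σ)) (2 * (τ * σ) / (τ + σ)).toNNReal z := by
  unfold g1 gaussianPDFReal
  have h1 : (((2 * (τ * σ) / (τ + σ)).toNNReal : ℝ≥0) : ℝ) = 2 * (τ * σ) / (τ + σ) :=
    Real.coe_toNNReal _ (by positivity)
  rw [h1]
  have hs : 0 < τ + σ := by positivity
  have e1 : √(4 * π * τ) * √(4 * π * σ) = √(4 * π * (τ + σ)) *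
      √(2 * π * (2 * (τ * σ) / (τ + σ))) := by
    rw [← Real.sqrt_mul (by positivity), ← Real.sqrt_mul (by positivity)]
    congr 1
    field_simp
    norm_num
  have e2 : -((x - z) ^ 2 / (4 * τ)) + -((z - y) ^ 2 / (4 * σ)) =
      -((x - y) ^ 2 / (4 * (τ + σ))) +
      -(z - (σ * x + τ * y) / (τ + σ)) ^ 2 / (2 * (2 * (τ * σ) / (τ + σ))) := by
    field_simp
    ring
  calc (√(4 * π * τ))⁻¹ * Real.exp (-((x - z) ^ 2 / (4 * τ))) *
        ((√(4 * π * σ))⁻¹ * Real.exp (-((z - y) ^ 2 / (4 * σ))))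
      = (√(4 * π * τ) * √(4 * π * σ))⁻¹ *
        Real.exp (-((x - z) ^ 2 / (4 * τ)) + -((z - y) ^ 2 / (4 * σ))) := by
        rw [Real.exp_add, mul_inv]; ring
    _ = _ := by
        rw [e1, e2, Real.exp_add, mul_inv]; ring

lemma pos_mk {a : ℝ} (ha : 0 < a) : a.toNNReal ≠ 0 := by
  simpa using ha

theorem t_SEMI : P_SEMI := by
  intro d τ σ hτ hσ x y
  constructor
  · have h1 : ∀ z : Fin d → ℝ, ENNReal.ofReal (G τ (x - z)) * ENNReal.ofReal (G σ (z - y)) =
        ENNReal.ofReal (∏ i, (g1 (τ + σ) (x i - y i) *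
          gaussianPDFReal ((σ * x i + τ * y i) / (τ + σ)) (2 * (τ * σ) / (τ + σ)).toNNReal
            (z i))) := by
      intro z
      rw [← ENNReal.ofReal_mul (G_nonneg _ _), G_eq, G_eq, ← Finset.prod_mul_distrib]
      congr 1
      apply Finset.prod_congr rfl
      intro i _
      rw [← g1_mul hτ hσ]
      rfl
    simp only [h1]
    rw [← ofReal_integral_eq_lintegral_ofReal]
    · rw [integral_fintype_prod_volume_eq_prod (fun i z => g1 (τ + σ) (x i - y i) *
          gaussianPDFReal ((σ * x i + τ * y i) / (τ + σ)) (2 * (τ * σ) / (τ + σ)).toNNReal z)]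
      congr 1
      rw [G_eq]
      apply Finset.prod_congr rfl
      intro i _
      rw [integral_const_mul, integral_gaussianPDFReal_eq_one _ (pos_mk (by positivity)), mul_one]
      rfl
    · apply Integrable.fintype_prod_dep (f := fun i z => g1 (τ + σ) (x i - y i) *
          gaussianPDFReal ((σ * x i + τ * y i) / (τ + σ)) (2 * (τ * σ) / (τ + σ)).toNNReal z)
      intro i
      exact (integrable_gaussianPDFReal _ _).const_mul _
    · refine Filter.Eventually.of_forall fun z => ?_
      exact Finset.prod_nonneg fun i _ => mul_nonneg (g1_nonneg _ _) (gaussianPDFReal_nonneg _ _ _)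
  · have h1 : ∀ z : Fin d → ℝ, ENNReal.ofReal (G τ (x - z)) =
        ENNReal.ofReal (∏ i, gaussianPDFReal (x i) (2 * τ).toNNReal (z i)) := by
      intro z
      rw [G_eq]
      congr 1
      apply Finset.prod_congr rfl
      intro i _
      rw [← g1_gauss hτ]
      rfl
    simp only [h1]
    rw [← ofReal_integral_eq_lintegral_ofReal]
    · rw [integral_fintype_prod_volume_eq_prod (fun i z => gaussianPDFReal (x i)
          (2 * τ).toNNReal z)]
      simp [integral_gaussianPDFReal_eq_one _ (pos_mk (show 0 < 2 * τ by positivity))]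
    · apply Integrable.fintype_prod_dep (f := fun i z => gaussianPDFReal (x i)
          (2 * τ).toNNReal z)
      intro i
      exact integrable_gaussianPDFReal _ _
    · refine Filter.Eventually.of_forall fun z => ?_
      exact Finset.prod_nonneg fun i _ => gaussianPDFReal_nonneg _ _ _

end Pool.Agent.L7h76.LS
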