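import Mathlib
import Pool.Agent.L7h99.LS.Defs
import Pool.Agent.L7h76.LS.Semi

/-!
Lower bound for the form of the heat semigroup at small times (part `P_LOW` of the project LS).
-/

set_option autoImplicit false

open MeasureTheory Set Filter Topology Real
open scoped ENNReal NNReal

namespace Pool.Agent.L7h76.LS

open Pool.Agent.L7h99.LS ProbabilityTheory

lemma g1_pdf {τ : ℝ} (hτ : 0 < τ) (u : ℝ) : g1 τ u = gaussianPDFReal 0 (2 * τ).toNNReal u := by
  rw [← g1_gauss hτ, zero_sub]
  unfold g1
  rw [neg_sq]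

lemma g1_int {τ : ℝ} (hτ : 0 < τ) : Integrable (fun u : ℝ => g1 τ u) := by
  simp only [g1_pdf hτ]
  exact integrable_gaussianPDFReal _ _

lemma g1_one {τ : ℝ} (hτ : 0 < τ) : ∫ u : ℝ, g1 τ u = 1 := by
  simp only [g1_pdf hτ]
  exact integral_gaussianPDFReal_eq_one _ (pos_mk (by positivity))

lemma g1_int1 {τ : ℝ} (hτ : 0 < τ) : Integrable (fun u : ℝ => u * g1 τ u) := by
  have h1 := integrable_rpow_mul_exp_neg_mul_sq (b := 1 / (4 * τ)) (by positivity)
    (s := 1) (by norm_num)
  have h2 : (fun u : ℝ => u * g1 τ u) = fun u : ℝ => (√(4 * π * τ))⁻¹ *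
      (u ^ (1 : ℝ) * Real.exp (-(1 / (4 * τ)) * u ^ 2)) := by
    funext u
    rw [Real.rpow_one]
    unfold g1
    rw [show -(u ^ 2 / (4 * τ)) = -(1 / (4 * τ)) * u ^ 2 by ring]
    ring
  rw [h2]
  exact h1.const_mul _

lemma g1_int2 {τ : ℝ} (hτ : 0 < τ) : Integrable (fun u : ℝ => u ^ 2 * g1 τ u) := by
  have h1 := integrable_rpow_mul_exp_neg_mul_sq (b := 1 / (4 * τ)) (by positivity)
    (s := 2) (by norm_num)
  have h2 : (fun u : ℝ => u ^ 2 * g1 τ u) = fun u : ℝ => (√(4 * π * τ))⁻¹ *
      (u ^ (2 : ℝ) * Real.exp (-(1 / (4 * τ)) * u ^ 2)) := by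
    funext u
    rw [Real.rpow_two]
    unfold g1
    rw [show -(u ^ 2 / (4 * τ)) = -(1 / (4 * τ)) * u ^ 2 by ring]
    ring
  rw [h2]
  exact h1.const_mul _

lemma g1_m1 {τ : ℝ} (hτ : 0 < τ) : ∫ u : ℝ, u * g1 τ u = 0 := by
  have h1 : ∫ u : ℝ, u * g1 τ u = ∫ u : ℝ, (-u) * g1 τ (-u) :=
    (integral_neg_eq_self (fun u : ℝ => u * g1 τ u) volume).symm
  have h2 : ∫ u : ℝ, (-u) * g1 τ (-u) = - ∫ u : ℝ, u * g1 τ u := by
    rw [← integral_neg]
    congr 1
    funext u
    have : g1 τ (-u) = g1 τ u := by unfold g1; rw [neg_sq]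
    rw [this]
    ring
  linarith

lemma g1_m2 {τ : ℝ} (hτ : 0 < τ) : ∫ u : ℝ, u ^ 2 * g1 τ u = 2 * τ := by
  have h1 := variance_fun_id_gaussianReal (μ := 0) (v := (2 * τ).toNNReal)
  rw [variance_eq_integral aemeasurable_id', integral_id_gaussianReal,
    integral_gaussianReal_eq_integral_smul (pos_mk (by positivity)),
    Real.coe_toNNReal _ (by positivity)] at h1
  rw [← h1]
  congr 1
  funext u
  rw [g1_pdf hτ, smul_eq_mul, sub_zero]
  ring

/-- the factors of the second moments -/
noncomputable def mf {d : ℕ} (τ : ℝ) (i j k : Fin d) (u : ℝ) : ℝ :=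
  (if k = i then u else 1) * (if k = j then u else 1) * g1 τ u

lemma mf_prod {d : ℕ} (τ : ℝ) (i j : Fin d) (z : Fin d → ℝ) :
    ∏ k, mf τ i j k (z k) = z i * z j * G τ z := by
  unfold mf
  rw [Finset.prod_mul_distrib, Finset.prod_mul_distrib, G_eq]
  congr 2
  · rw [Finset.prod_ite_eq' Finset.univ i (fun k => z k)]
    simp
  · rw [Finset.prod_ite_eq' Finset.univ j (fun k => z k)]
    simp

lemma mf_int {d : ℕ} {τ : ℝ} (hτ : 0 < τ) (i j k : Fin d) :
    Integrable (fun u => mf τ i j k u) := by
  unfold mf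
  by_cases h1 : k = i <;> by_cases h2 : k = j
  · simp only [if_pos h1, if_pos h2]
    have := g1_int2 hτ
    simpa only [sq] using this
  · simpa only [if_pos h1, if_neg h2, mul_one] using g1_int1 hτ
  · simpa only [if_neg h1, if_pos h2, one_mul] using g1_int1 hτ
  · simpa only [if_neg h1, if_neg h2, one_mul] using g1_int hτ

lemma mom_int {d : ℕ} {τ : ℝ} (hτ : 0 < τ) (i j : Fin d) :
    Integrable (fun z : Fin d → ℝ => z i * z j * G τ z) := by
  simp only [← mf_prod]
  exact Integrable.fintype_prod_dep (f := fun k u => mf τ i j k u) fun k => mf_int hτ i j k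

lemma mom {d : ℕ} {τ : ℝ} (hτ : 0 < τ) (i j : Fin d) :
    ∫ z : Fin d → ℝ, z i * z j * G τ z = if i = j then 2 * τ else 0 := by
  simp only [← mf_prod]
  rw [integral_fintype_prod_volume_eq_prod (fun k u => mf τ i j k u)]
  by_cases hij : i = j
  · subst hij
    have h1 : ∀ k : Fin d, ∫ u, mf τ i i k u = if k = i then 2 * τ else 1 := by
      intro k
      unfold mf
      by_cases h : k = i
      · simp only [h, if_true]
        rw [← g1_m2 hτ]
        congr 1
        funext u
        ring
      · simp only [h, if_false, one_mul]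
        exact g1_one hτ
    simp only [h1]
    rw [Finset.prod_ite_eq' Finset.univ i (fun _ => 2 * τ)]
    simp
  · rw [if_neg hij]
    apply Finset.prod_eq_zero (Finset.mem_univ i)
    unfold mf
    simp only [if_true, hij, if_false, mul_one]
    exact g1_m1 hτ

lemma G_int {d : ℕ} {τ : ℝ} (hτ : 0 < τ) : Integrable (fun z : Fin d → ℝ => G τ z) := by
  simp only [G_eq]
  exact Integrable.fintype_prod_dep (f := fun _ u => g1 τ u) fun k => g1_int hτ

lemma G_one {d : ℕ} {τ : ℝ} (hτ : 0 < τ) : ∫ z : Fin d → ℝ, G τ z = 1 := by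
  simp only [G_eq]
  rw [integral_fintype_prod_volume_eq_prod (fun _ u => g1 τ u)]
  simp [g1_one hτ]

lemma G_cont {d : ℕ} (τ : ℝ) : Continuous (fun z : Fin d → ℝ => G τ z) := by
  unfold G
  fun_prop

/-- the inequality of Jensen for squares -/
lemma sq_int_le {φ : ℝ → ℝ} (hφ : Continuous φ) :
    (∫ t in (0 : ℝ)..1, φ t) ^ 2 ≤ ∫ t in (0 : ℝ)..1, φ t ^ 2 := by
  set m := ∫ t in (0 : ℝ)..1, φ t with hm
  have h1 : 0 ≤ ∫ t in (0 : ℝ)..1, (φ t - m) ^ 2 :=
    intervalIntegral.integral_nonneg (by norm_num) fun t _ => sq_nonneg _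
  have h2 : ∫ t in (0 : ℝ)..1, (φ t - m) ^ 2 = (∫ t in (0 : ℝ)..1, φ t ^ 2) - m ^ 2 := by
    have h3 : ∀ t, (φ t - m) ^ 2 = φ t ^ 2 - (2 * m * φ t - m ^ 2) := fun t => by ring
    simp only [h3]
    rw [intervalIntegral.integral_sub, intervalIntegral.integral_sub,
      intervalIntegral.integral_const_mul, intervalIntegral.integral_const, ← hm]
    · simp
      ring
    · exact (Continuous.intervalIntegrable (by fun_prop) _ _)
    · exact (Continuous.intervalIntegrable (by fun_prop) _ _)
    · exact (Continuous.intervalIntegrable (by fun_prop) _ _)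
    · exact (Continuous.intervalIntegrable (by fun_prop) _ _)
  linarith

variable {d : ℕ}

lemma dir_cont {g : (Fin d → ℝ) → ℝ} (hg : ContDiff ℝ 1 g) (z : Fin d → ℝ) :
    Continuous fun x => fderiv ℝ g x z :=
  (hg.continuous_fderiv one_ne_zero).clm_apply continuous_const

lemma dir_supp {g : (Fin d → ℝ) → ℝ} (hs : HasCompactSupport g) (z : Fin d → ℝ) :
    HasCompactSupport fun x => fderiv ℝ g x z :=
  hs.fderiv_apply ℝ z

lemma diff_eq {g : (Fin d → ℝ) → ℝ} (hg : ContDiff ℝ 1 g) (x z : Fin d → ℝ) :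
    g x - g (x - z) = ∫ t in (0 : ℝ)..1, fderiv ℝ g (x - z + t • z) z := by
  have h1 : ∀ t ∈ Set.uIcc (0 : ℝ) 1, HasDerivAt (fun t : ℝ => g (x - z + t • z))
      (fderiv ℝ g (x - z + t • z) z) t := by
    intro t _
    have h2 : HasFDerivAt g (fderiv ℝ g (x - z + t • z)) (x - z + t • z) :=
      (hg.differentiable one_ne_zero _).hasFDerivAt
    have h3 : HasDerivAt (fun t : ℝ => x - z + t • z) z t := by
      have := ((hasDerivAt_id t).smul_const z).const_add (x - z)
      simpa using this
    exact h2.comp_hasDerivAt t h3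
  have h4 := intervalIntegral.integral_eq_sub_of_hasDerivAt h1
    (Continuous.intervalIntegrable ((dir_cont hg z).comp (by fun_prop)) _ _)
  rw [h4]
  simp

lemma diff_sq {g : (Fin d → ℝ) → ℝ} (hg : ContDiff ℝ 1 g) (x z : Fin d → ℝ) :
    ENNReal.ofReal ((g x - g (x - z)) ^ 2) ≤
      ∫⁻ t in Ioc (0 : ℝ) 1, ENNReal.ofReal (fderiv ℝ g (x + (-z + t • z)) z ^ 2) := by
  have hc : Continuous fun t : ℝ => fderiv ℝ g (x + (-z + t • z)) z :=
    (dir_cont hg z).comp (by fun_prop)
  rw [← ofReal_integral_eq_lintegral_ofReal]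
  · apply ENNReal.ofReal_le_ofReal
    rw [diff_eq hg, ← intervalIntegral.integral_of_le (by norm_num)]
    have h1 : ∀ t : ℝ, x - z + t • z = x + (-z + t • z) := fun t => by abel
    simp only [h1]
    exact sq_int_le hc
  · exact (Continuous.intervalIntegrable (by fun_prop) 0 1).1
  · exact Filter.Eventually.of_forall fun t => sq_nonneg _

lemma sq_supp {g : (Fin d → ℝ) → ℝ} (hs : HasCompactSupport g) :
    HasCompactSupport fun x => g x ^ 2 := by
  have h1 : (fun x => g x ^ 2) = g * g := by
    funext x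
    rw [Pi.mul_apply, sq]
  rw [h1]
  exact hs.mul_right

lemma shift_supp {g : (Fin d → ℝ) → ℝ} (hs : HasCompactSupport g) (z : Fin d → ℝ) :
    HasCompactSupport fun x => g (x - z) := by
  have h : (fun x => g (x - z)) = g ∘ (Homeomorph.addRight (-z)) := by
    funext x
    rw [Function.comp_apply, Homeomorph.coe_addRight, sub_eq_add_neg]
  rw [h]
  exact hs.comp_homeomorph _

lemma D_le {g : (Fin d → ℝ) → ℝ} (hg : ContDiff ℝ 1 g) (hs : HasCompactSupport g)
    (z : Fin d → ℝ) :
    ∫ x, (g x - g (x - z)) ^ 2 ≤ ∫ x, fderiv ℝ g x z ^ 2 := by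
  have hc := dir_cont hg z
  have hgc := hg.continuous
  have hcs := dir_supp hs z
  have i1 : Integrable fun x => (fderiv ℝ g x z) ^ 2 := by
    apply Continuous.integrable_of_hasCompactSupport (hc.pow 2)
    exact sq_supp hcs
  have hsh : HasCompactSupport fun x => g (x - z) := shift_supp hs z
  have i2 : Integrable fun x => (g x - g (x - z)) ^ 2 := by
    apply Continuous.integrable_of_hasCompactSupport (by fun_prop)
    have h1 : HasCompactSupport fun x => g x - g (x - z) := hs.sub hsh
    exact sq_supp h1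
  have h0 : 0 ≤ ∫ x, fderiv ℝ g x z ^ 2 := integral_nonneg fun x => sq_nonneg _
  rw [← ENNReal.ofReal_le_ofReal_iff h0,
    ofReal_integral_eq_lintegral_ofReal i2 (Filter.Eventually.of_forall fun _ => sq_nonneg _),
    ofReal_integral_eq_lintegral_ofReal i1 (Filter.Eventually.of_forall fun _ => sq_nonneg _)]
  calc ∫⁻ x, ENNReal.ofReal ((g x - g (x - z)) ^ 2)
      ≤ ∫⁻ x, ∫⁻ t in Ioc (0 : ℝ) 1,
          ENNReal.ofReal (fderiv ℝ g (x + (-z + t • z)) z ^ 2) :=
        lintegral_mono fun x => diff_sq hg x z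
    _ = ∫⁻ t in Ioc (0 : ℝ) 1, ∫⁻ x, ENNReal.ofReal (fderiv ℝ g (x + (-z + t • z)) z ^ 2) := by
        apply lintegral_lintegral_swap
        apply Measurable.aemeasurable
        apply ENNReal.measurable_ofReal.comp
        apply Continuous.measurable
        have : Continuous fun p : (Fin d → ℝ) × ℝ => fderiv ℝ g (p.1 + (-z + p.2 • z)) z :=
          hc.comp (by fun_prop)
        exact this.pow 2
    _ = ∫⁻ t in Ioc (0 : ℝ) 1, ∫⁻ x, ENNReal.ofReal (fderiv ℝ g x z ^ 2) := by
        apply lintegral_congr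
        intro t
        exact lintegral_add_right_eq_self (fun x => ENNReal.ofReal (fderiv ℝ g x z ^ 2)) _
    _ = ∫⁻ x, ENNReal.ofReal (fderiv ℝ g x z ^ 2) := by
        rw [lintegral_const]
        simp

/-- the matrix of the products of the derivatives -/
noncomputable def Am (g : (Fin d → ℝ) → ℝ) (i j : Fin d) : ℝ :=
  ∫ x, LTd.pd i g x * LTd.pd j g x

lemma fderiv_sum (g : (Fin d → ℝ) → ℝ) (x z : Fin d → ℝ) :
    fderiv ℝ g x z = ∑ i, z i * LTd.pd i g x := by
  have h1 : z = ∑ i, z i • (Pi.single i 1 : Fin d → ℝ) := by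
    funext k
    simp [Finset.sum_apply, Pi.single_apply]
  conv_lhs => rw [h1]
  rw [map_sum]
  apply Finset.sum_congr rfl
  intro i _
  rw [map_smul, smul_eq_mul]
  rfl

lemma pp_int {g : (Fin d → ℝ) → ℝ} (hg : ContDiff ℝ 1 g) (hs : HasCompactSupport g)
    (i j : Fin d) : Integrable fun x => LTd.pd i g x * LTd.pd j g x := by
  apply Continuous.integrable_of_hasCompactSupport
  · exact (dir_cont hg _).mul (dir_cont hg _)
  · exact (dir_supp hs _).mul_right

lemma Q_eq {g : (Fin d → ℝ) → ℝ} (hg : ContDiff ℝ 1 g) (hs : HasCompactSupport g)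
    (z : Fin d → ℝ) :
    ∫ x, fderiv ℝ g x z ^ 2 = ∑ i, ∑ j, z i * z j * Am g i j := by
  have h1 : ∀ x, fderiv ℝ g x z ^ 2 =
      ∑ i, ∑ j, z i * z j * (LTd.pd i g x * LTd.pd j g x) := by
    intro x
    rw [fderiv_sum, sq, Finset.sum_mul_sum]
    apply Finset.sum_congr rfl
    intro i _
    apply Finset.sum_congr rfl
    intro j _
    ring
  simp only [h1]
  rw [integral_finsetSum]
  · apply Finset.sum_congr rfl
    intro i _
    rw [integral_finsetSum]
    · apply Finset.sum_congr rfl
      intro j _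
      rw [integral_const_mul]
      rfl
    · intro j _
      exact (pp_int hg hs i j).const_mul _
  · intro i _
    apply integrable_finsetSum
    intro j _
    exact (pp_int hg hs i j).const_mul _

theorem t_LOW : P_LOW := by
  intro d τ hτ g hg hs
  have hgc := hg.continuous
  -- the change of variables
  have e1 : ∀ x : Fin d → ℝ, ∫ y, g x * (G τ (x - y) * g y) =
      ∫ z, g x * (G τ z * g (x - z)) := by
    intro x
    rw [← integral_sub_left_eq_self (fun y => g x * (G τ (x - y) * g y)) volume x]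
    simp only [sub_sub_cancel]
  simp only [e1]
  -- integrability
  obtain ⟨M, hM⟩ := hgc.bounded_above_of_compact_support hs
  have gi : Integrable g := hgc.integrable_of_hasCompactSupport hs
  have hI : Integrable (Function.uncurry fun x z : Fin d → ℝ => g x * (G τ z * g (x - z)))
      (volume.prod volume) := by
    have h1 : Integrable (fun p : (Fin d → ℝ) × (Fin d → ℝ) => g p.1 * (M * G τ p.2))
        (volume.prod volume) := gi.mul_prod ((G_int hτ).const_mul M)
    apply h1.mono
    · apply Continuous.aestronglyMeasurable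
      have hG : Continuous fun p : (Fin d → ℝ) × (Fin d → ℝ) => G τ p.2 :=
        (G_cont τ).comp continuous_snd
      have h2 : Continuous fun p : (Fin d → ℝ) × (Fin d → ℝ) => g (p.1 - p.2) :=
        hgc.comp (by fun_prop)
      exact (hgc.comp continuous_fst).mul (hG.mul h2)
    · refine Filter.Eventually.of_forall fun p => ?_
      simp only [Function.uncurry, norm_mul]
      have hM0 : 0 ≤ M := (norm_nonneg _).trans (hM 0)
      rw [Real.norm_of_nonneg hM0, mul_comm M]
      exact mul_le_mul_of_nonneg_left (mul_le_mul_of_nonneg_left (hM _) (norm_nonneg _))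
        (norm_nonneg _)
  rw [integral_integral_swap hI]
  have e2 : ∀ z : Fin d → ℝ, ∫ x, g x * (G τ z * g (x - z)) =
      G τ z * ∫ x, g x * g (x - z) := by
    intro z
    rw [← integral_const_mul]
    congr 1
    funext x
    ring
  have hI2 : Integrable fun z : Fin d → ℝ => G τ z * ∫ x, g x * g (x - z) := by
    have := hI.integral_prod_right
    simp only [Function.uncurry] at this
    simpa only [e2] using this
  simp only [e2]
  -- the pointwise lower bound
  have i0 : Integrable fun x => g x ^ 2 := by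
    apply Continuous.integrable_of_hasCompactSupport (hgc.pow 2)
    exact sq_supp hs
  have low : ∀ z : Fin d → ℝ, (∫ x, g x ^ 2) - (∑ i, ∑ j, z i * z j * Am g i j) / 2 ≤
      ∫ x, g x * g (x - z) := by
    intro z
    have hsh : HasCompactSupport fun x => g (x - z) := shift_supp hs z
    have hc2 : Continuous fun x => g (x - z) := hgc.comp (by fun_prop)
    have i1 : Integrable fun x => g (x - z) ^ 2 := by
      apply Continuous.integrable_of_hasCompactSupport (hc2.pow 2)
      exact sq_supp hsh
    have i2 : Integrable fun x => (g x - g (x - z)) ^ 2 := by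
      apply Continuous.integrable_of_hasCompactSupport ((hgc.sub hc2).pow 2)
      have h1 : HasCompactSupport fun x => g x - g (x - z) := hs.sub hsh
      exact sq_supp h1
    have h1 : ∫ x, g (x - z) ^ 2 = ∫ x, g x ^ 2 :=
      integral_sub_right_eq_self (fun x => g x ^ 2) z
    have h2 : ∀ x, g x * g (x - z) =
        (1 / 2) * (g x ^ 2 + g (x - z) ^ 2 - (g x - g (x - z)) ^ 2) := fun x => by ring
    simp only [h2]
    have h4 : ∫ x, (g x ^ 2 + g (x - z) ^ 2 - (g x - g (x - z)) ^ 2) =
        (∫ x, g x ^ 2) + (∫ x, g (x - z) ^ 2) - ∫ x, (g x - g (x - z)) ^ 2 := by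
      have h5 : ∫ x, (g x ^ 2 + g (x - z) ^ 2 - (g x - g (x - z)) ^ 2) =
          (∫ x, (g x ^ 2 + g (x - z) ^ 2)) - ∫ x, (g x - g (x - z)) ^ 2 :=
        integral_sub (i0.add i1) i2
      rw [h5, integral_add i0 i1]
    rw [integral_const_mul, h4, h1]
    have h3 := D_le hg hs z
    rw [Q_eq hg hs] at h3
    linarith
  -- the integral of the lower bound
  have hJ : Integrable fun z : Fin d → ℝ =>
      G τ z * ((∫ x, g x ^ 2) - (∑ i, ∑ j, z i * z j * Am g i j) / 2) := by
    have h1 : (fun z : Fin d → ℝ =>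
        G τ z * ((∫ x, g x ^ 2) - (∑ i, ∑ j, z i * z j * Am g i j) / 2)) =
        fun z => (∫ x, g x ^ 2) * G τ z -
          ∑ i, ∑ j, (Am g i j / 2) * (z i * z j * G τ z) := by
      funext z
      rw [mul_sub, mul_comm (G τ z)]
      congr 1
      rw [mul_div_assoc', Finset.mul_sum, Finset.sum_div]
      apply Finset.sum_congr rfl
      intro i _
      rw [Finset.mul_sum, Finset.sum_div]
      apply Finset.sum_congr rfl
      intro j _
      ring
    rw [h1]
    apply ((G_int hτ).const_mul _).sub
    apply integrable_finsetSum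
    intro i _
    apply integrable_finsetSum
    intro j _
    exact (mom_int hτ i j).const_mul _
  have hJv : ∫ z : Fin d → ℝ,
      G τ z * ((∫ x, g x ^ 2) - (∑ i, ∑ j, z i * z j * Am g i j) / 2) =
      (∫ x, g x ^ 2) - τ * ∑ i, Am g i i := by
    have h1 : (fun z : Fin d → ℝ =>
        G τ z * ((∫ x, g x ^ 2) - (∑ i, ∑ j, z i * z j * Am g i j) / 2)) =
        fun z => (∫ x, g x ^ 2) * G τ z -
          ∑ i, ∑ j, (Am g i j / 2) * (z i * z j * G τ z) := by
      funext z
      rw [mul_sub, mul_comm (G τ z)]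
      congr 1
      rw [mul_div_assoc', Finset.mul_sum, Finset.sum_div]
      apply Finset.sum_congr rfl
      intro i _
      rw [Finset.mul_sum, Finset.sum_div]
      apply Finset.sum_congr rfl
      intro j _
      ring
    rw [h1, integral_sub, integral_const_mul, G_one hτ, mul_one]
    · congr 1
      rw [integral_finsetSum, Finset.mul_sum]
      · apply Finset.sum_congr rfl
        intro i _
        rw [integral_finsetSum]
        · simp only [integral_const_mul, mom hτ]
          rw [Finset.sum_eq_single i]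
          · rw [if_pos rfl]; ring
          · intro j _ hj
            rw [if_neg (Ne.symm hj), mul_zero]
          · intro h
            exact absurd (Finset.mem_univ i) h
        · intro j _
          exact (mom_int hτ i j).const_mul _
      · intro i _
        apply integrable_finsetSum
        intro j _
        exact (mom_int hτ i j).const_mul _
    · exact (G_int hτ).const_mul _
    · apply integrable_finsetSum
      intro i _
      apply integrable_finsetSum
      intro j _
      exact (mom_int hτ i j).const_mul _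
  have hA : ∫ x, ∑ k, LTd.pd k g x ^ 2 = ∑ i, Am g i i := by
    rw [integral_finsetSum]
    · apply Finset.sum_congr rfl
      intro i _
      unfold Am
      congr 1
      funext x
      ring
    · intro i _
      have := pp_int hg hs i i
      simpa [sq] using this
  rw [hA, ← hJv]
  apply integral_mono hJ hI2
  intro z
  exact mul_le_mul_of_nonneg_left (low z) (G_nonneg τ z)

end Pool.Agent.L7h76.LS
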