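import Mathlib
import Pool.Agent.L7h99.LS.Defs

/-!
The choice of the parameters (part `P_NUM` of the project LS).
-/

set_option autoImplicit false

open MeasureTheory Set Filter Topology Real
open scoped ENNReal NNReal

namespace Pool.Agent.L7h76.LS

open Pool.Agent.L7h99.LS

/-- the maximum of `t ^ y e ^ (-t)` -/
lemma pow_exp_le {y t : ℝ} (hy : 0 < y) (ht : 0 < t) :
    Real.exp (-t) * t ^ y ≤ (y / Real.exp 1) ^ y := by
  have h1 : Real.log t ≤ Real.log y + (t / y - 1) := by
    have h2 := Real.log_le_sub_one_of_pos (div_pos ht hy)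
    rw [Real.log_div ht.ne' hy.ne'] at h2
    linarith
  have h3 : t ^ y = Real.exp (Real.log t * y) := Real.rpow_def_of_pos ht y
  have h4 : (y / Real.exp 1) ^ y = Real.exp ((Real.log y - 1) * y) := by
    rw [Real.rpow_def_of_pos (by positivity), Real.log_div hy.ne' (Real.exp_ne_zero _),
      Real.log_exp]
  rw [h3, h4, ← Real.exp_add, Real.exp_le_exp]
  have h5 : Real.log t * y ≤ (Real.log y + (t / y - 1)) * y :=
    mul_le_mul_of_nonneg_right h1 hy.le
  have h6 : (Real.log y + (t / y - 1)) * y = (Real.log y - 1) * y + t := by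
    field_simp
    ring
  linarith

lemma gamma_le {x : ℝ} (hx : 0 < x) :
    Real.Gamma (x + 1) ≤ 1 + ((x + 2) / Real.exp 1) ^ (x + 2) := by
  set A := ((x + 2) / Real.exp 1) ^ (x + 2) with hA
  have hA0 : 0 ≤ A := by positivity
  rw [Real.Gamma_eq_integral (by positivity)]
  have hi : IntegrableOn (fun t : ℝ => Real.exp (-t) * t ^ (x + 1 - 1)) (Ioi 0) :=
    Real.GammaIntegral_convergent (by positivity)
  have hU : Ioi (0 : ℝ) = Ioc 0 1 ∪ Ioi 1 := (Ioc_union_Ioi_eq_Ioi zero_le_one).symm
  rw [hU, setIntegral_union (Ioc_disjoint_Ioi le_rfl) measurableSet_Ioi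
    (hi.mono_set (by rw [hU]; exact subset_union_left))
    (hi.mono_set (by rw [hU]; exact subset_union_right))]
  apply add_le_add
  · calc ∫ t in Ioc (0 : ℝ) 1, Real.exp (-t) * t ^ (x + 1 - 1)
        ≤ ∫ t in Ioc (0 : ℝ) 1, (1 : ℝ) := by
          apply setIntegral_mono_on (hi.mono_set (by rw [hU]; exact subset_union_left))
            (by simp) measurableSet_Ioc
          intro t ht
          have h1 : Real.exp (-t) ≤ 1 := Real.exp_le_one_iff.2 (by linarith [ht.1])
          have h2 : t ^ (x + 1 - 1) ≤ 1 := Real.rpow_le_one ht.1.le ht.2 (by linarith)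
          have h3 : 0 ≤ t ^ (x + 1 - 1) := Real.rpow_nonneg ht.1.le _
          calc Real.exp (-t) * t ^ (x + 1 - 1) ≤ 1 * 1 :=
                mul_le_mul h1 h2 h3 zero_le_one
            _ = 1 := one_mul 1
      _ = 1 := by simp
  · calc ∫ t in Ioi (1 : ℝ), Real.exp (-t) * t ^ (x + 1 - 1)
        ≤ ∫ t in Ioi (1 : ℝ), A * t ^ (-2 : ℝ) := by
          apply setIntegral_mono_on (hi.mono_set (by rw [hU]; exact subset_union_right))
            ((integrableOn_Ioi_rpow_of_lt (by norm_num) one_pos).const_mul _) measurableSet_Ioi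
          intro t ht
          have ht0 : (0 : ℝ) < t := lt_trans one_pos ht
          have h1 := pow_exp_le (y := x + 2) (by positivity) ht0
          have h2 : t ^ (x + 1 - 1) = t ^ (x + 2) * t ^ (-2 : ℝ) := by
            rw [← Real.rpow_add ht0]
            congr 1
            ring
          rw [h2, ← mul_assoc]
          exact mul_le_mul_of_nonneg_right h1 (Real.rpow_nonneg ht0.le _)
      _ = A := by
          rw [integral_const_mul, integral_Ioi_rpow_of_lt (by norm_num) one_pos]
          norm_num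

lemma Kcl_eq {d : ℕ} (hd : 0 < d) :
    LTd.Kcl d = (d : ℝ) / (d + 2) * (4 * π * Real.Gamma ((d : ℝ) / 2 + 1) ^ ((2 : ℝ) / d)) := by
  have hd0 : (0 : ℝ) < d := by exact_mod_cast hd
  have : Nonempty (Fin d) := ⟨⟨0, hd⟩⟩
  have hG : 0 < Real.Gamma ((d : ℝ) / 2 + 1) := Real.Gamma_pos_of_pos (by positivity)
  unfold LTd.Kcl
  rw [EuclideanSpace.volume_ball]
  simp only [ENNReal.ofReal_one, one_pow, one_mul, Fintype.card_fin]
  rw [ENNReal.toReal_ofReal (by positivity), Real.div_rpow (by positivity) hG.le]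
  have h1 : (√π ^ d) ^ ((2 : ℝ) / d) = π := by
    rw [← Real.rpow_natCast, ← Real.rpow_mul (Real.sqrt_nonneg _)]
    have : (d : ℝ) * (2 / d) = 2 := by field_simp
    rw [this, Real.rpow_two, Real.sq_sqrt pi_pos.le]
  rw [h1]
  have h2 : 0 < Real.Gamma ((d : ℝ) / 2 + 1) ^ ((2 : ℝ) / d) := Real.rpow_pos_of_pos hG _
  congr 1
  field_simp
  ring

lemma Kcl_le {d : ℕ} (hd : 4 ≤ d) :
    LTd.Kcl d ≤ 2 * π * d / Real.exp 1 * Real.exp ((4 + 4 * Real.log d) / d) := by
  have hd4 : (4 : ℝ) ≤ d := by exact_mod_cast hd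
  have hd0 : (0 : ℝ) < d := by linarith
  rw [Kcl_eq (by omega)]
  set x : ℝ := (d : ℝ) / 2 with hx
  have hx2 : 2 ≤ x := by rw [hx]; linarith
  have hx0 : 0 < x := by linarith
  have he := Real.exp_pos 1
  have he3 : Real.exp 1 < 3 := by
    have := Real.exp_one_lt_d9
    linarith
  have hG := gamma_le hx0
  have hA1 : 1 ≤ ((x + 2) / Real.exp 1) ^ (x + 2) := by
    apply Real.one_le_rpow _ (by linarith)
    rw [le_div_iff₀ he]
    linarith
  have hG2 : Real.Gamma (x + 1) ≤ 2 * ((x + 2) / Real.exp 1) ^ (x + 2) := by linarith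
  have hGp : 0 < Real.Gamma (x + 1) := Real.Gamma_pos_of_pos (by positivity)
  have h2d : (2 : ℝ) / d = 1 / x := by rw [hx]; field_simp
  have h1 : Real.Gamma (x + 1) ^ ((2 : ℝ) / d) ≤
      x / Real.exp 1 * ((x + 2) / x) * Real.exp ((2 + 4 * Real.log d) / d) := by
    rw [h2d]
    have h3 : Real.Gamma (x + 1) ^ (1 / x) ≤ (2 * ((x + 2) / Real.exp 1) ^ (x + 2)) ^ (1 / x) :=
      Real.rpow_le_rpow hGp.le hG2 (by positivity)
    refine h3.trans ?_
    have h4 : (2 * ((x + 2) / Real.exp 1) ^ (x + 2)) ^ (1 / x) =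
        Real.exp (1 / x * Real.log 2 + (1 / x * (x + 2)) * (Real.log (x + 2) - 1)) := by
      rw [Real.rpow_def_of_pos (by positivity), Real.log_mul (by norm_num) (by positivity),
        Real.log_rpow (by positivity), Real.log_div (by positivity) he.ne', Real.log_exp]
      congr 1
      ring
    have h5 : x / Real.exp 1 * ((x + 2) / x) = Real.exp (Real.log (x + 2) - 1) := by
      rw [Real.exp_sub, Real.exp_log (by positivity)]
      field_simp
    rw [h4, h5, ← Real.exp_add, Real.exp_le_exp]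
    have h6 : Real.log (x + 2) ≤ Real.log d := by
      apply Real.log_le_log (by positivity)
      rw [hx]; linarith
    have h7 : Real.log 2 ≤ 1 := by
      have := Real.log_two_lt_d9
      linarith
    have h8 : (1 / x * (x + 2)) = 1 + 2 / x := by
      field_simp
    rw [h8]
    have h9 : (2 + 4 * Real.log d) / d = 1 / x + 2 / x * Real.log d := by
      rw [hx]; field_simp; ring
    rw [h9]
    have h10 : 1 / x * Real.log 2 ≤ 1 / x * 1 := mul_le_mul_of_nonneg_left h7 (by positivity)
    have h11 : 2 / x * Real.log (x + 2) ≤ 2 / x * Real.log d :=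
      mul_le_mul_of_nonneg_left h6 (by positivity)
    have h12 : 0 < 2 / x := by positivity
    nlinarith
  have h2 : (d : ℝ) / (d + 2) = x / (x + 1) := by
    rw [hx]; field_simp
  rw [h2]
  calc x / (x + 1) * (4 * π * Real.Gamma (x + 1) ^ ((2 : ℝ) / d))
      ≤ x / (x + 1) * (4 * π * (x / Real.exp 1 * ((x + 2) / x) *
        Real.exp ((2 + 4 * Real.log d) / d))) := by
        gcongr
    _ = 2 * π * d / Real.exp 1 * ((1 + 1 / (x + 1)) * Real.exp ((2 + 4 * Real.log d) / d)) := by
        have : (d : ℝ) = 2 * x := by rw [hx]; ring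
        rw [this]
        field_simp
        ring
    _ ≤ 2 * π * d / Real.exp 1 * (Real.exp (2 / d) * Real.exp ((2 + 4 * Real.log d) / d)) := by
        gcongr
        have h3 := Real.add_one_le_exp (2 / (d : ℝ))
        have h4 : 1 / (x + 1) ≤ 2 / d := by
          rw [hx, div_le_div_iff₀ (by positivity) hd0]
          linarith
        linarith
    _ = _ := by
        rw [← Real.exp_add]
        congr 2
        field_simp
        ring

lemma exists_pow_between {T : ℝ} (hT : 1 ≤ T) : ∃ j : ℕ, T ≤ 2 ^ j ∧ (2 : ℝ) ^ j ≤ 2 * T := by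
  classical
  have hex : ∃ j : ℕ, T ≤ 2 ^ j := by
    obtain ⟨j, hj⟩ := pow_unbounded_of_one_lt T (by norm_num : (1 : ℝ) < 2)
    exact ⟨j, hj.le⟩
  refine ⟨Nat.find hex, Nat.find_spec hex, ?_⟩
  rcases Nat.eq_zero_or_pos (Nat.find hex) with h | h
  · rw [h, pow_zero]; linarith
  · obtain ⟨k, hk⟩ : ∃ k, Nat.find hex = k + 1 := ⟨Nat.find hex - 1, by omega⟩
    have h1 : ¬ T ≤ 2 ^ k := Nat.find_min hex (by omega)
    rw [hk, pow_succ]
    linarith

theorem t_NUM : P_NUM := by
  intro C hC
  set c : ℝ := 1 / (32 * (3 * C + 30)) with hc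
  have hc0 : 0 < c := by positivity
  set R : ℝ := 2 * (C + 8) + 1 / (2 * c) + 4 with hR
  have hR4 : 4 ≤ R := by
    have : 0 ≤ 2 * (C + 8) + 1 / (2 * c) := by positivity
    linarith
  obtain ⟨d₀, hd₀⟩ := exists_nat_ge (R ^ 2)
  have hd₀4 : 4 ≤ d₀ := by
    have : (4 : ℝ) ≤ d₀ := by nlinarith
    exact_mod_cast this
  refine ⟨c, hc0, d₀, hd₀4, ?_⟩
  intro d hd N hN hNle
  have hdR : R ^ 2 ≤ d := hd₀.trans (by exact_mod_cast hd)
  have hd16 : (16 : ℝ) ≤ d := by nlinarith
  have hd0 : (0 : ℝ) < d := by linarith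
  have hs : R ≤ √d := Real.le_sqrt_of_sq_le hdR
  have hs0 : 0 < √(d : ℝ) := Real.sqrt_pos.2 hd0
  have hss : √(d : ℝ) * √d = d := Real.mul_self_sqrt hd0.le
  have hlog1 : 1 ≤ Real.log d := by
    rw [Real.le_log_iff_exp_le hd0]
    have := Real.exp_one_lt_d9
    linarith
  have hlog2 : Real.log d ≤ 2 * √d := by
    have h1 := Real.log_le_sub_one_of_pos hs0
    have h2 : Real.log d = 2 * Real.log √d := by
      rw [Real.log_sqrt hd0.le]; ring
    linarith
  set L := Real.log (d : ℝ) with hL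
  have hLpos : 0 < L := by linarith
  -- the size of `T`
  have hT : 1 ≤ 4 * c * d / L := by
    rw [le_div_iff₀ hLpos, one_mul]
    have h1 : 1 / (2 * c) ≤ √d := by
      have : 0 ≤ 2 * (C + 8) + 4 := by positivity
      linarith
    have h2 : 1 ≤ √d * (2 * c) := by
      rwa [div_le_iff₀ (by positivity)] at h1
    calc L ≤ 2 * √d := hlog2
      _ = 2 * √d * 1 := by ring
      _ ≤ 2 * √d * (√d * (2 * c)) := by gcongr
      _ = 4 * c * (√d * √d) := by ring
      _ = 4 * c * d := by rw [hss]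
  obtain ⟨j, hj1, hj2⟩ := exists_pow_between hT
  refine ⟨j, 2 * (C + 8) * L / d, by positivity, ?_, ?_⟩
  · have hpj : (0 : ℝ) < 2 ^ j := by positivity
    have hcd : 0 < c * d / L := by positivity
    have h1 : Real.log N ≤ (d : ℝ) / 2 * Real.log (c * d / L) := by
      rw [← Real.log_rpow hcd]
      exact Real.log_le_log hN hNle
    have h2 : Real.log (c * d / L) + 1 ≤ Real.log (2 ^ j * Real.exp 1 / 4) := by
      have h3 : Real.log (c * d / L) + 1 = Real.log (c * d / L * Real.exp 1) := by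
        rw [Real.log_mul hcd.ne' (Real.exp_ne_zero _), Real.log_exp]
      rw [h3]
      apply Real.log_le_log (by positivity)
      have h4 : c * d / L ≤ 2 ^ j / 4 := by
        have h5 : 4 * c * d / L = 4 * (c * d / L) := by ring
        rw [h5] at hj1
        linarith
      calc c * d / L * Real.exp 1 ≤ 2 ^ j / 4 * Real.exp 1 := by gcongr
        _ = 2 ^ j * Real.exp 1 / 4 := by ring
    have h3 : (d : ℝ) / 2 - √d ≤
        (d : ℝ) / 2 * Real.log (2 ^ j * Real.exp 1 / 4) - Real.log N - √d := by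
      have h4 : (d : ℝ) / 2 * (Real.log (c * d / L) + 1) ≤
          (d : ℝ) / 2 * Real.log (2 ^ j * Real.exp 1 / 4) :=
        mul_le_mul_of_nonneg_left h2 (by positivity)
      linarith
    have h4 : (d : ℝ) / 4 ≤ (d : ℝ) / 2 - √d := by
      have h5 : 4 ≤ √(d : ℝ) := hR4.trans hs
      nlinarith
    rw [le_div_iff₀ hpj]
    have h5 : 6 + 3 / 2 * (d : ℝ) * (2 * (C + 8) * L / d) = 6 + 3 * (C + 8) * L := by
      field_simp
    rw [h5]
    have h6 : 6 + 3 * (C + 8) * L ≤ (3 * C + 30) * L := by nlinarith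
    calc (6 + 3 * (C + 8) * L) * 2 ^ j ≤ (3 * C + 30) * L * (2 * (4 * c * d / L)) := by
          apply mul_le_mul h6 hj2 hpj.le (by positivity)
      _ = (3 * C + 30) * (8 * c) * d := by field_simp; ring
      _ = (d : ℝ) / 4 := by rw [hc]; field_simp; ring
      _ ≤ _ := h4.trans h3
  · have hd4 : 4 ≤ d := hd₀4.trans hd
    have h1 := Kcl_le hd4
    rw [← hL] at h1
    set s : ℝ := (4 + 4 * L) / d + C / d with hsdef
    have hs1 : s ≤ (C + 8) * L / d := by
      rw [hsdef, ← add_div]
      gcongr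
      nlinarith
    have hs00 : 0 ≤ s := by positivity
    have hs2 : s ≤ 1 := by
      refine hs1.trans ?_
      rw [div_le_one hd0]
      have h2 : 2 * (C + 8) ≤ √d := by
        have : 0 ≤ 1 / (2 * c) + 4 := by positivity
        linarith
      calc (C + 8) * L ≤ (C + 8) * (2 * √d) := by gcongr
        _ = 2 * (C + 8) * √d := by ring
        _ ≤ √d * √d := by gcongr
        _ = d := hss
    have hexp : Real.exp s ≤ 1 + 2 * s := by
      have h2 := Real.exp_bound' hs00 hs2 (n := 2) (by norm_num)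
      norm_num [Finset.sum_range_succ] at h2
      nlinarith
    calc LTd.Kcl d * (1 + C / d)
        ≤ 2 * π * d / Real.exp 1 * Real.exp ((4 + 4 * L) / d) * Real.exp (C / d) := by
          have h2 := Real.add_one_le_exp (C / (d : ℝ))
          apply mul_le_mul h1 (by linarith) (by positivity) (by positivity)
      _ = 2 * π * d / Real.exp 1 * Real.exp s := by
          rw [mul_assoc, ← Real.exp_add]
      _ ≤ 2 * π * d / Real.exp 1 * (1 + 2 * (C + 8) * L / d) := by
          gcongr
          refine hexp.trans ?_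
          have : 2 * (C + 8) * L / d = 2 * ((C + 8) * L / d) := by ring
          rw [this]
          linarith

end Pool.Agent.L7h76.LS
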